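import Pool.Agent.K1H79.Q3.StmA

set_option autoImplicit false

/-!
# Partial summation over the elements of `ℤ[ω]` of bounded norm
-/

namespace Pool.Agent.K1H33.Q3

open Finset Pool.Agent.K1H79.Q3

lemma abs_jac (a : ℤ) (b : ℕ) : |((jacobiSym a b : ℤ) : ℝ)| ≤ 1 := by
  rcases jacobiSym.trichotomy a b with h | h | h <;> rw [h] <;> norm_num

lemma Per_bd {q : ℕ} {χ : E → ℝ} (h : Per q χ) : 1 ≤ q ∧ ∀ z, |χ z| ≤ 1 := by
  obtain ⟨M, g, φ, ψ, hG, hq, _, h2, h3⟩ := h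
  constructor
  · rw [← hq]
    exact Nat.mul_pos hG.1.pos (pow_pos hG.2.1.pos 2)
  · intro z
    rw [h3 z, abs_mul]
    unfold XR
    rw [abs_mul]
    unfold XM XG
    have a1 := abs_jac (((PhiR M g φ z).1.val : ℕ) : ℤ) M
    have a2 := abs_jac (((QuadraticAlgebra.norm (PhiR M g φ z).2).val : ℕ) : ℤ) g
    calc _ ≤ 1 * (1 * 1 : ℝ) := by
          apply mul_le_mul (h2 z) _ (by positivity) zero_le_one
          exact mul_le_mul a1 a2 (abs_nonneg _) zero_le_one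
      _ = 1 := by norm_num

lemma EB_mono {s t : ℕ} (h : s ≤ t) : EB s ⊆ EB t := by
  intro z hz
  rw [mem_EB] at hz ⊢
  exact ⟨hz.1, hz.2.trans h⟩

lemma EB_zero : EB 0 = ∅ := by
  rw [Finset.eq_empty_iff_forall_notMem]
  intro z hz
  rw [mem_EB] at hz
  exact hz.1 (nm_eq_zero.1 (Nat.le_zero.1 hz.2))

/-- the sum of `f` over the elements of norm at most `t` -/
noncomputable def SS (f : E → ℝ) (t : ℕ) : ℝ := ∑ z ∈ EB t, f z

lemma EB_succ (n : ℕ) : EB (n + 1) = EB n ∪ (EB (n + 1)).filter (fun z => n < nm z) := by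
  ext z
  rw [Finset.mem_union, Finset.mem_filter, mem_EB, mem_EB]
  constructor
  · rintro ⟨h1, h2⟩
    rcases Nat.lt_or_ge n (nm z) with h | h
    · exact Or.inr ⟨⟨h1, h2⟩, h⟩
    · exact Or.inl ⟨h1, h⟩
  · rintro (⟨h1, h2⟩ | ⟨⟨h1, h2⟩, _⟩)
    · exact ⟨h1, by omega⟩
    · exact ⟨h1, h2⟩

lemma EB_disj (n : ℕ) : Disjoint (EB n) ((EB (n + 1)).filter (fun z => n < nm z)) := by
  rw [Finset.disjoint_left]
  intro z hz h
  rw [mem_EB] at hz
  rw [Finset.mem_filter] at h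
  omega

lemma sum_succ (f : E → ℝ) (w : ℕ → ℝ) (n : ℕ) :
    ∑ z ∈ (EB (n + 1)).filter (fun z => n < nm z), f z * w (nm z) = (SS f (n + 1) - SS f n) * w (n + 1) := by
  have h1 : SS f (n + 1) - SS f n = ∑ z ∈ (EB (n + 1)).filter (fun z => n < nm z), f z := by
    unfold SS
    conv_lhs => rw [EB_succ n]
    rw [Finset.sum_union (EB_disj n)]
    ring
  rw [h1, Finset.sum_mul]
  apply Finset.sum_congr rfl
  intro z hz
  rw [Finset.mem_filter, mem_EB] at hz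
  rw [show nm z = n + 1 by omega]

/-- partial summation -/
lemma abel (f : E → ℝ) (w : ℕ → ℝ) (Y0 : ℕ) : ∀ Y : ℕ, Y0 ≤ Y →
    ∑ z ∈ (EB Y).filter (fun z => Y0 < nm z), f z * w (nm z) =
      SS f Y * w Y - SS f Y0 * w Y0 + ∑ k ∈ Ico Y0 Y, SS f k * (w k - w (k + 1)) := by
  intro Y hY
  induction Y, hY using Nat.le_induction with
  | base =>
    rw [Finset.Ico_self, Finset.sum_empty, Finset.sum_eq_zero]
    · ring
    · intro z hz
      rw [Finset.mem_filter, mem_EB] at hz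
      omega
  | succ n hn ih =>
    rw [Finset.sum_Ico_succ_top hn]
    have h1 : (EB (n + 1)).filter (fun z => Y0 < nm z) = (EB n).filter (fun z => Y0 < nm z) ∪
        (EB (n + 1)).filter (fun z => n < nm z) := by
      ext z
      simp only [Finset.mem_union, Finset.mem_filter, mem_EB]
      constructor
      · rintro ⟨⟨h1, h2⟩, h3⟩
        rcases Nat.lt_or_ge n (nm z) with h | h
        · exact Or.inr ⟨⟨h1, h2⟩, h⟩
        · exact Or.inl ⟨⟨h1, h⟩, h3⟩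
      · rintro (⟨⟨h1, h2⟩, h3⟩ | ⟨⟨h1, h2⟩, h3⟩)
        · exact ⟨⟨h1, by omega⟩, h3⟩
        · exact ⟨⟨h1, h2⟩, by omega⟩
    have h2 : Disjoint ((EB n).filter (fun z => Y0 < nm z)) ((EB (n + 1)).filter (fun z => n < nm z)) :=
      Disjoint.mono_left (Finset.filter_subset _ _) (EB_disj n)
    rw [h1, Finset.sum_union h2, ih, sum_succ]
    ring

lemma abel0 (f : E → ℝ) (w : ℕ → ℝ) (Y : ℕ) :
    ∑ z ∈ EB Y, f z * w (nm z) = SS f Y * w Y + ∑ k ∈ range Y, SS f k * (w k - w (k + 1)) := by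
  have h := abel f w 0 Y (Nat.zero_le _)
  have h1 : (EB Y).filter (fun z => 0 < nm z) = EB Y := by
    apply Finset.filter_true_of_mem
    intro z hz
    exact nm_pos (mem_EB.1 hz).1
  rw [h1] at h
  have h2 : SS f 0 = 0 := by unfold SS; rw [EB_zero, Finset.sum_empty]
  rw [h, h2, Nat.Ico_zero_eq_range]
  ring

/-- the sum of the `1 / √(nm z)` -/
lemma sum_inv_sqrt (h : ∀ T : ℕ, ((EB T).card : ℝ) ≤ 12 * T) (Y : ℕ) :
    ∑ z ∈ EB Y, 1 / √(nm z : ℝ) ≤ 24 * √Y := by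
  have h0 := abel0 (fun _ => 1) (fun k => 1 / √(k : ℝ)) Y
  simp only [one_mul] at h0
  rw [h0]
  have hSS : ∀ k, SS (fun _ => (1 : ℝ)) k = ((EB k).card : ℝ) := by
    intro k
    unfold SS
    rw [Finset.sum_const, nsmul_eq_mul, mul_one]
  have h1 : ∑ k ∈ range Y, SS (fun _ => (1 : ℝ)) k * (1 / √(k : ℝ) - 1 / √((k + 1 : ℕ) : ℝ)) ≤
      ∑ k ∈ range Y, (12 * (k : ℝ)) * (1 / √(k : ℝ) - 1 / √((k + 1 : ℕ) : ℝ)) := by
    apply Finset.sum_le_sum
    intro k _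
    rw [hSS]
    rcases Nat.eq_zero_or_pos k with rfl | hk
    · rw [EB_zero]
      simp
    · apply mul_le_mul_of_nonneg_right (h k)
      rw [sub_nonneg]
      apply one_div_le_one_div_of_le (Real.sqrt_pos.2 (by exact_mod_cast hk))
      apply Real.sqrt_le_sqrt
      push_cast
      linarith
  have h2 : SS (fun _ => (1 : ℝ)) Y * (1 / √(Y : ℝ)) ≤ (12 * (Y : ℝ)) * (1 / √(Y : ℝ)) := by
    rw [hSS]
    exact mul_le_mul_of_nonneg_right (h Y) (by positivity)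
  have h3 : ∀ Y : ℕ, (12 * (Y : ℝ)) * (1 / √(Y : ℝ)) +
      ∑ k ∈ range Y, (12 * (k : ℝ)) * (1 / √(k : ℝ) - 1 / √((k + 1 : ℕ) : ℝ)) ≤ 24 * √Y := by
    intro Y
    induction Y with
    | zero => simp
    | succ n ih =>
      rw [Finset.sum_range_succ]
      have h4 : (1 : ℝ) / √((n + 1 : ℕ) : ℝ) ≤ 2 * (√((n + 1 : ℕ) : ℝ) - √(n : ℝ)) := by
        have hp : 0 < √((n + 1 : ℕ) : ℝ) := Real.sqrt_pos.2 (by positivity)
        rw [div_le_iff₀ hp]
        have e1 : √((n + 1 : ℕ) : ℝ) * √((n + 1 : ℕ) : ℝ) = n + 1 := by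
          rw [Real.mul_self_sqrt (by positivity)]; push_cast; ring
        have e2 : √(n : ℝ) * √(n : ℝ) = n := Real.mul_self_sqrt (by positivity)
        nlinarith [sq_nonneg (√((n + 1 : ℕ) : ℝ) - √(n : ℝ))]
      push_cast at ih h4 ⊢
      nlinarith [ih, h4]
  calc _ ≤ _ := add_le_add h2 h1
    _ ≤ _ := h3 Y

/-- the sum of the `f z / nm z` over a range -/
lemma sum_inv (f : E → ℝ) (D : ℝ) (Y0 Y : ℕ) (hY0 : 1 ≤ Y0) (hY : Y0 ≤ Y) (hD : 0 ≤ D)
    (hS : ∀ k, Y0 ≤ k → k ≤ Y → |SS f k| ≤ D * k) :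
    |∑ z ∈ (EB Y).filter (fun z => Y0 < nm z), f z * (1 / (nm z : ℝ))| ≤ D * (3 + Real.log Y) := by
  rw [abel f (fun k => 1 / (k : ℝ)) Y0 Y hY]
  have hYp : (0 : ℝ) < Y := by exact_mod_cast (by omega : 0 < Y)
  have hY0p : (0 : ℝ) < Y0 := by exact_mod_cast (by omega : 0 < Y0)
  have h1 : |SS f Y * (1 / (Y : ℝ))| ≤ D := by
    rw [abs_mul, abs_of_pos (by positivity : (0 : ℝ) < 1 / Y), mul_one_div, div_le_iff₀ hYp]
    exact hS Y hY le_rfl
  have h2 : |SS f Y0 * (1 / (Y0 : ℝ))| ≤ D := by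
    rw [abs_mul, abs_of_pos (by positivity : (0 : ℝ) < 1 / Y0), mul_one_div, div_le_iff₀ hY0p]
    exact hS Y0 le_rfl hY
  have h3 : |∑ k ∈ Ico Y0 Y, SS f k * (1 / (k : ℝ) - 1 / ((k + 1 : ℕ) : ℝ))| ≤ D * (1 + Real.log Y) := by
    calc _ ≤ ∑ k ∈ Ico Y0 Y, |SS f k * (1 / (k : ℝ) - 1 / ((k + 1 : ℕ) : ℝ))| :=
          Finset.abs_sum_le_sum_abs _ _
      _ ≤ ∑ k ∈ Ico Y0 Y, D * (((k : ℝ) + 1)⁻¹) := by
          apply Finset.sum_le_sum
          intro k hk
          rw [Finset.mem_Ico] at hk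
          have hkp : (0 : ℝ) < k := by exact_mod_cast (by omega : 0 < k)
          have e1 : (1 / (k : ℝ) - 1 / ((k + 1 : ℕ) : ℝ)) = (1 / k) * ((k : ℝ) + 1)⁻¹ := by
            push_cast
            field_simp
            ring
          rw [e1, abs_mul, abs_of_pos (by positivity : (0 : ℝ) < (1 / k) * ((k : ℝ) + 1)⁻¹), ← mul_assoc]
          apply mul_le_mul_of_nonneg_right _ (by positivity)
          rw [mul_one_div, div_le_iff₀ hkp]
          exact hS k hk.1 hk.2.le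
      _ = D * ∑ k ∈ Ico Y0 Y, ((k : ℝ) + 1)⁻¹ := by rw [Finset.mul_sum]
      _ ≤ D * ∑ k ∈ range Y, ((k : ℝ) + 1)⁻¹ := by
          apply mul_le_mul_of_nonneg_left _ hD
          apply Finset.sum_le_sum_of_subset_of_nonneg
          · intro k hk
            rw [Finset.mem_Ico] at hk
            exact Finset.mem_range.2 hk.2
          · intro k _ _
            positivity
      _ ≤ D * (1 + Real.log Y) := by
          apply mul_le_mul_of_nonneg_left _ hD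
          have := harmonic_le_one_add_log Y
          unfold harmonic at this
          push_cast at this
          exact this
  calc _ ≤ |SS f Y * (1 / (Y : ℝ))| + |SS f Y0 * (1 / (Y0 : ℝ))| +
        |∑ k ∈ Ico Y0 Y, SS f k * (1 / (k : ℝ) - 1 / ((k + 1 : ℕ) : ℝ))| := by
        refine (abs_add_le _ _).trans ?_
        gcongr
        exact abs_sub _ _
    _ ≤ D + D + D * (1 + Real.log Y) := by gcongr
    _ = _ := by ring

end Pool.Agent.K1H33.Q3
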