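import Pool.Agent.K1H33.Q3.Abel

set_option autoImplicit false

/-!
# The hyperbola method in `ℤ[ω]`
-/

namespace Pool.Agent.K1H33.Q3

open Finset Pool.Agent.K1H79.Q3

lemma split (F : E → ℝ) {Y T : ℕ} (h : Y ≤ T) :
    ∑ z ∈ EB T, F z = ∑ z ∈ EB Y, F z + ∑ z ∈ (EB T).filter (fun z => Y < nm z), F z := by
  rw [← Finset.sum_filter_add_sum_filter_not (EB T) (fun z => Y < nm z), add_comm]
  congr 1
  apply Finset.sum_congr _ (fun _ _ => rfl)
  ext z
  rw [Finset.mem_filter, mem_EB, mem_EB]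
  constructor
  · rintro ⟨⟨h1, h2⟩, h3⟩
    exact ⟨h1, by omega⟩
  · rintro ⟨h1, h2⟩
    exact ⟨⟨h1, by omega⟩, by omega⟩

open Classical in
lemma exch (χ : E → ℝ) {Y T : ℕ} (hY : 1 ≤ Y) :
    ∑ d ∈ (EB T).filter (fun z => Y < nm z), χ d * (((EB (T / nm d)).filter fun e => Odd (nm e)).card : ℝ) =
      ∑ e ∈ (EB (T / Y)).filter (fun e => Odd (nm e)),
        ∑ d ∈ (EB (T / nm e)).filter (fun z => Y < nm z), χ d := by
  have h1 : ∀ d : E, χ d * (((EB (T / nm d)).filter fun e => Odd (nm e)).card : ℝ) =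
      ∑ e ∈ (EB (T / nm d)).filter (fun e => Odd (nm e)), χ d := by
    intro d
    rw [Finset.sum_const, nsmul_eq_mul, mul_comm]
  rw [Finset.sum_congr rfl (fun d _ => h1 d)]
  apply Finset.sum_comm'
  intro d e
  simp only [Finset.mem_filter, mem_EB]
  constructor
  · rintro ⟨⟨⟨h1, h2⟩, h3⟩, ⟨h4, h5⟩, h6⟩
    have hd := nm_pos h1
    have he := nm_pos h4
    have h7 : nm e * nm d ≤ T := (Nat.le_div_iff_mul_le hd).1 h5
    refine ⟨⟨⟨h1, (Nat.le_div_iff_mul_le he).2 (by rw [mul_comm]; exact h7)⟩, h3⟩, ⟨h4, ?_⟩, h6⟩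
    exact h5.trans (Nat.div_le_div_left h3.le hY)
  · rintro ⟨⟨⟨h1, h2⟩, h3⟩, ⟨h4, h5⟩, h6⟩
    have hd := nm_pos h1
    have he := nm_pos h4
    have h7 : nm d * nm e ≤ T := (Nat.le_div_iff_mul_le he).1 h2
    exact ⟨⟨⟨h1, h2.trans (Nat.div_le_self _ _)⟩, h3⟩, ⟨h4, (Nat.le_div_iff_mul_le hd).2 (by
      rw [mul_comm]; exact h7)⟩, h6⟩

theorem t_HYPof : S_HYPof := by
  classical
  intro hECT hBUR η hη
  obtain ⟨hcard, _, _, _, ρ, C0, hρ, hC0, hodd⟩ := hECT
  obtain ⟨δ', C', hδ', hC', hbur⟩ := hBUR (η / 2) (by linarith)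
  obtain ⟨β, hβ⟩ : ∃ β, β = min (η / 2) (δ' / 2) := ⟨_, rfl⟩
  obtain ⟨δ, hδ⟩ : ∃ δ, δ = min (β / 2) (1 / 2) := ⟨_, rfl⟩
  have hβ0 : 0 < β := by rw [hβ]; exact lt_min (by linarith) (by linarith)
  have hδ0 : 0 < δ := by rw [hδ]; exact lt_min (by linarith) (by norm_num)
  have hβ1 : β ≤ η / 2 := by rw [hβ]; exact min_le_left _ _
  have hβ2 : β ≤ δ' / 2 := by rw [hβ]; exact min_le_right _ _
  have hδ1 : δ ≤ β / 2 := by rw [hδ]; exact min_le_left _ _
  have hδ2 : δ ≤ 1 / 2 := by rw [hδ]; exact min_le_right _ _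
  refine ⟨δ, 48 * C0 + 24 * ρ + 24 * C' + ρ * C' * (3 + 2 / δ'), hδ0, by positivity, ?_⟩
  intro q χ hP
  obtain ⟨hq, hχ⟩ := Per_bd hP
  obtain ⟨Q, hQ⟩ : ∃ Q : ℝ, Q = (q : ℝ) := ⟨_, rfl⟩
  have hQ1 : 1 ≤ Q := by rw [hQ]; exact_mod_cast hq
  have hQ0 : 0 < Q := by linarith
  obtain ⟨Y0, hY0⟩ : ∃ Y0 : ℕ, Y0 = ⌈Q ^ (1 / 4 + η / 2)⌉₊ := ⟨_, rfl⟩
  refine ⟨ρ * ∑ d ∈ EB Y0, χ d * (1 / (nm d : ℝ)), ?_⟩
  intro T hT1 hT2
  rw [← hQ] at hT1 hT2 ⊢
  obtain ⟨Y, hY⟩ : ∃ Y : ℕ, Y = ⌈(T : ℝ) * Q ^ (-β)⌉₊ := ⟨_, rfl⟩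
  have hTpos : (0 : ℝ) < T := (Real.rpow_pos_of_pos hQ0 _).trans_le hT1
  have a1 : Q ^ (1 / 4 + η / 2) ≤ T * Q ^ (-β) := by
    calc Q ^ (1 / 4 + η / 2) ≤ Q ^ (1 / 4 + η + (-β)) :=
          Real.rpow_le_rpow_of_exponent_le hQ1 (by linarith)
      _ = Q ^ (1 / 4 + η) * Q ^ (-β) := Real.rpow_add hQ0 _ _
      _ ≤ T * Q ^ (-β) := mul_le_mul_of_nonneg_right hT1 (Real.rpow_nonneg hQ0.le _)
  have a2 : Y0 ≤ Y := by rw [hY0, hY]; exact Nat.ceil_le_ceil a1
  have a3' : (1 : ℝ) ≤ Q ^ (1 / 4 + η / 2) := Real.one_le_rpow hQ1 (by linarith)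
  have a3 : 1 ≤ Y0 := by
    rw [hY0, Nat.one_le_ceil_iff]
    linarith
  have a4 : (Y : ℝ) ≤ 2 * (T * Q ^ (-β)) := by
    have := Nat.ceil_lt_add_one (show 0 ≤ (T : ℝ) * Q ^ (-β) by positivity)
    rw [← hY] at this
    linarith
  have a5 : (T : ℝ) * Q ^ (-β) ≤ Y := by rw [hY]; exact Nat.le_ceil _
  have a6 : Y ≤ T := by
    rw [hY, Nat.ceil_le]
    calc (T : ℝ) * Q ^ (-β) ≤ T * 1 := by
          apply mul_le_mul_of_nonneg_left _ hTpos.le
          exact Real.rpow_le_one_of_one_le_of_nonpos hQ1 (by linarith)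
      _ = T := mul_one _
  have hY1 : 1 ≤ Y := a3.trans a2
  have hYpos : (0 : ℝ) < Y := by exact_mod_cast hY1
  have a7 : ((T / Y : ℕ) : ℝ) ≤ Q ^ β := by
    calc ((T / Y : ℕ) : ℝ) ≤ (T : ℝ) / Y := Nat.cast_div_le
      _ ≤ Q ^ β := by
          rw [div_le_iff₀ hYpos]
          calc (T : ℝ) = Q ^ β * (T * Q ^ (-β)) := by
                rw [mul_comm (T : ℝ), ← mul_assoc, ← Real.rpow_add hQ0, add_neg_cancel, Real.rpow_zero, one_mul]
            _ ≤ Q ^ β * Y := mul_le_mul_of_nonneg_left a5 (Real.rpow_nonneg hQ0.le _)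
  have a8 : ∀ k : ℕ, Y0 ≤ k → k ≤ T → |SS χ k| ≤ C' * Q ^ (-δ') * k := by
    intro k hk1 hk2
    have h1 := hbur q χ hP k (by
      rw [← hQ]
      calc Q ^ (1 / 4 + η / 2) ≤ (Y0 : ℝ) := by rw [hY0]; exact Nat.le_ceil _
        _ ≤ k := by exact_mod_cast hk1) (by
      rw [← hQ]
      calc (k : ℝ) ≤ T := by exact_mod_cast hk2
        _ ≤ Q ^ (1 / 2 + δ) := hT2
        _ ≤ Q ^ (1 / 2 + δ') := Real.rpow_le_rpow_of_exponent_le hQ1 (by linarith))
    rw [← hQ] at h1
    unfold SS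
    linarith [h1]
  -- the second part
  have b2 : |∑ d ∈ (EB T).filter (fun z => Y < nm z), χ d *
      (((EB (T / nm d)).filter fun e => Odd (nm e)).card : ℝ)| ≤ 24 * C' * (T * Q ^ (-δ)) := by
    rw [exch χ hY1]
    calc _ ≤ ∑ e ∈ (EB (T / Y)).filter (fun e => Odd (nm e)),
          |∑ d ∈ (EB (T / nm e)).filter (fun z => Y < nm z), χ d| := Finset.abs_sum_le_sum_abs _ _
      _ ≤ ∑ e ∈ (EB (T / Y)).filter (fun e => Odd (nm e)), 2 * (C' * Q ^ (-δ') * T) := by
          apply Finset.sum_le_sum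
          intro e he
          rw [Finset.mem_filter, mem_EB] at he
          have hep := nm_pos he.1.1
          have h1 : Y ≤ T / nm e := by
            rw [Nat.le_div_iff_mul_le hep, mul_comm]
            exact (Nat.le_div_iff_mul_le hY1).1 he.1.2
          have h2 : T / nm e ≤ T := Nat.div_le_self _ _
          have h3 := split χ h1
          have h4 : ∑ d ∈ (EB (T / nm e)).filter (fun z => Y < nm z), χ d = SS χ (T / nm e) - SS χ Y := by
            unfold SS
            linarith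
          rw [h4]
          have h5 := a8 _ (a2.trans h1) h2
          have h6 := a8 Y a2 a6
          have h7 : ((T / nm e : ℕ) : ℝ) ≤ T := by exact_mod_cast h2
          have h8 : (Y : ℝ) ≤ T := by exact_mod_cast a6
          have hp : 0 ≤ C' * Q ^ (-δ') := by positivity
          calc |SS χ (T / nm e) - SS χ Y| ≤ |SS χ (T / nm e)| + |SS χ Y| := abs_sub _ _
            _ ≤ C' * Q ^ (-δ') * T + C' * Q ^ (-δ') * T :=
                add_le_add (h5.trans (mul_le_mul_of_nonneg_left h7 hp)) (h6.trans (mul_le_mul_of_nonneg_left h8 hp))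
            _ = _ := by ring
      _ = (((EB (T / Y)).filter (fun e => Odd (nm e))).card : ℝ) * (2 * (C' * Q ^ (-δ') * T)) := by
          rw [Finset.sum_const, nsmul_eq_mul]
      _ ≤ (12 * Q ^ β) * (2 * (C' * Q ^ (-δ') * T)) := by
          apply mul_le_mul_of_nonneg_right _ (by positivity)
          calc (((EB (T / Y)).filter (fun e => Odd (nm e))).card : ℝ) ≤ ((EB (T / Y)).card : ℝ) := by
                exact_mod_cast Finset.card_filter_le _ _
            _ ≤ 12 * ((T / Y : ℕ) : ℝ) := hcard _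
            _ ≤ 12 * Q ^ β := by linarith
      _ = 24 * C' * (T * (Q ^ β * Q ^ (-δ'))) := by ring
      _ ≤ 24 * C' * (T * Q ^ (-δ)) := by
          apply mul_le_mul_of_nonneg_left _ (by positivity)
          apply mul_le_mul_of_nonneg_left _ hTpos.le
          rw [← Real.rpow_add hQ0]
          exact Real.rpow_le_rpow_of_exponent_le hQ1 (by linarith)
  -- the first part
  have b1 : |∑ d ∈ EB Y, χ d * (((EB (T / nm d)).filter fun e => Odd (nm e)).card : ℝ) -
      ρ * T * ∑ d ∈ EB Y, χ d * (1 / (nm d : ℝ))| ≤ (48 * C0 + 24 * ρ) * (T * Q ^ (-δ)) := by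
    rw [Finset.mul_sum, ← Finset.sum_sub_distrib]
    calc _ ≤ ∑ d ∈ EB Y, |χ d * (((EB (T / nm d)).filter fun e => Odd (nm e)).card : ℝ) -
          ρ * T * (χ d * (1 / (nm d : ℝ)))| := Finset.abs_sum_le_sum_abs _ _
      _ ≤ ∑ d ∈ EB Y, (C0 * √T * (1 / √(nm d : ℝ)) + ρ) := by
          apply Finset.sum_le_sum
          intro d hd
          rw [mem_EB] at hd
          have hdp : (0 : ℝ) < nm d := by exact_mod_cast nm_pos hd.1
          have e1 : χ d * (((EB (T / nm d)).filter fun e => Odd (nm e)).card : ℝ) -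
              ρ * T * (χ d * (1 / (nm d : ℝ))) = χ d *
              (((((EB (T / nm d)).filter fun e => Odd (nm e)).card : ℝ) - ρ * ((T / nm d : ℕ) : ℝ)) +
                ρ * (((T / nm d : ℕ) : ℝ) - T / nm d)) := by ring
          rw [e1, abs_mul]
          calc _ ≤ 1 * _ := mul_le_mul_of_nonneg_right (hχ d) (abs_nonneg _)
            _ = _ := one_mul _
            _ ≤ C0 * √((T / nm d : ℕ) : ℝ) + ρ * 1 := by
                refine (abs_add_le _ _).trans (add_le_add (hodd _) ?_)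
                rw [abs_mul, abs_of_pos hρ]
                apply mul_le_mul_of_nonneg_left _ hρ.le
                rw [abs_le]
                constructor
                · have := Nat.lt_floor_add_one ((T : ℝ) / nm d)
                  rw [Nat.floor_div_eq_div] at this
                  linarith
                · have := Nat.cast_div_le (α := ℝ) (m := T) (n := nm d)
                  linarith
            _ ≤ C0 * √T * (1 / √(nm d : ℝ)) + ρ := by
                rw [mul_one]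
                apply add_le_add _ le_rfl
                rw [mul_assoc]
                apply mul_le_mul_of_nonneg_left _ hC0.le
                rw [mul_one_div, ← Real.sqrt_div' _ hdp.le]
                exact Real.sqrt_le_sqrt Nat.cast_div_le
      _ = C0 * √T * ∑ d ∈ EB Y, 1 / √(nm d : ℝ) + ((EB Y).card : ℝ) * ρ := by
          rw [Finset.sum_add_distrib, ← Finset.mul_sum, Finset.sum_const, nsmul_eq_mul]
      _ ≤ C0 * √T * (24 * √Y) + (12 * Y) * ρ := by
          apply add_le_add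
          · exact mul_le_mul_of_nonneg_left (sum_inv_sqrt hcard Y) (by positivity)
          · exact mul_le_mul_of_nonneg_right (hcard Y) hρ.le
      _ ≤ C0 * √T * (24 * (2 * √T * Q ^ (-(β / 2)))) + (12 * (2 * (T * Q ^ (-β)))) * ρ := by
          apply add_le_add
          · apply mul_le_mul_of_nonneg_left _ (by positivity)
            apply mul_le_mul_of_nonneg_left _ (by norm_num)
            rw [Real.sqrt_le_iff]
            refine ⟨by positivity, ?_⟩
            have e2 : (2 * √T * Q ^ (-(β / 2))) ^ 2 = 4 * (T * Q ^ (-β)) := by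
              have e4 : (Q ^ (-(β / 2))) ^ 2 = Q ^ (-β) := by
                rw [sq, ← Real.rpow_add hQ0]
                congr 1
                ring
              rw [mul_pow, mul_pow, Real.sq_sqrt hTpos.le, e4]
              ring
            rw [e2]
            have : 0 ≤ (T : ℝ) * Q ^ (-β) := by positivity
            linarith
          · apply mul_le_mul_of_nonneg_right _ hρ.le
            linarith
      _ = 48 * C0 * (T * Q ^ (-(β / 2))) + 24 * ρ * (T * Q ^ (-β)) := by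
          have e3 : √(T : ℝ) * √T = T := Real.mul_self_sqrt hTpos.le
          linear_combination (48 * C0 * Q ^ (-(β / 2))) * e3
      _ ≤ 48 * C0 * (T * Q ^ (-δ)) + 24 * ρ * (T * Q ^ (-δ)) := by
          apply add_le_add
          · apply mul_le_mul_of_nonneg_left _ (by positivity)
            apply mul_le_mul_of_nonneg_left _ hTpos.le
            exact Real.rpow_le_rpow_of_exponent_le hQ1 (by linarith)
          · apply mul_le_mul_of_nonneg_left _ (by positivity)
            apply mul_le_mul_of_nonneg_left _ hTpos.le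
            exact Real.rpow_le_rpow_of_exponent_le hQ1 (by linarith)
      _ = _ := by ring
  -- the change of the main term
  have b3 : |∑ z ∈ (EB Y).filter (fun z => Y0 < nm z), χ z * (1 / (nm z : ℝ))| ≤
      C' * (3 + 2 / δ') * Q ^ (-δ) := by
    have h1 := sum_inv χ (C' * Q ^ (-δ')) Y0 Y a3 a2 (by positivity) (fun k hk1 hk2 => a8 k hk1 (hk2.trans a6))
    have h2 : Real.log Y ≤ Q ^ (δ' / 2) / (δ' / 2) := by
      calc Real.log Y ≤ Real.log T := Real.log_le_log hYpos (by exact_mod_cast a6)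
        _ ≤ Real.log (Q ^ (1 / 2 + δ)) := Real.log_le_log hTpos hT2
        _ = (1 / 2 + δ) * Real.log Q := Real.log_rpow hQ0 _
        _ ≤ 1 * Real.log Q := mul_le_mul_of_nonneg_right (by linarith) (Real.log_nonneg hQ1)
        _ = Real.log Q := one_mul _
        _ ≤ _ := Real.log_le_rpow_div hQ0.le (by linarith)
    have h3 : (1 : ℝ) ≤ Q ^ (δ' / 2) := Real.one_le_rpow hQ1 (by linarith)
    have h4 : Q ^ (-δ') * Q ^ (δ' / 2) = Q ^ (-(δ' / 2)) := by
      rw [← Real.rpow_add hQ0]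
      congr 1
      ring
    calc _ ≤ C' * Q ^ (-δ') * (3 + Real.log Y) := h1
      _ ≤ C' * Q ^ (-δ') * (3 * Q ^ (δ' / 2) + 2 / δ' * Q ^ (δ' / 2)) := by
          apply mul_le_mul_of_nonneg_left _ (by positivity)
          have : Q ^ (δ' / 2) / (δ' / 2) = 2 / δ' * Q ^ (δ' / 2) := by
            field_simp
          linarith
      _ = C' * (3 + 2 / δ') * (Q ^ (-δ') * Q ^ (δ' / 2)) := by ring
      _ ≤ C' * (3 + 2 / δ') * Q ^ (-δ) := by
          rw [h4]
          apply mul_le_mul_of_nonneg_left _ (by positivity)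
          exact Real.rpow_le_rpow_of_exponent_le hQ1 (by linarith)
  have b4 := split (fun z => χ z * (1 / (nm z : ℝ))) a2
  -- assembly
  have b5 : RS χ T - ρ * (∑ d ∈ EB Y0, χ d * (1 / (nm d : ℝ))) * T =
      (∑ d ∈ EB Y, χ d * (((EB (T / nm d)).filter fun e => Odd (nm e)).card : ℝ) -
        ρ * T * ∑ d ∈ EB Y, χ d * (1 / (nm d : ℝ))) +
      (∑ d ∈ (EB T).filter (fun z => Y < nm z), χ d *
        (((EB (T / nm d)).filter fun e => Odd (nm e)).card : ℝ)) +
      ρ * T * (∑ z ∈ (EB Y).filter (fun z => Y0 < nm z), χ z * (1 / (nm z : ℝ))) := by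
    unfold RS
    rw [split (fun d => χ d * (((EB (T / nm d)).filter fun e => Odd (nm e)).card : ℝ)) a6, b4]
    ring
  rw [b5]
  calc _ ≤ |∑ d ∈ EB Y, χ d * (((EB (T / nm d)).filter fun e => Odd (nm e)).card : ℝ) -
        ρ * T * ∑ d ∈ EB Y, χ d * (1 / (nm d : ℝ))| +
      |∑ d ∈ (EB T).filter (fun z => Y < nm z), χ d *
        (((EB (T / nm d)).filter fun e => Odd (nm e)).card : ℝ)| +
      |ρ * T * (∑ z ∈ (EB Y).filter (fun z => Y0 < nm z), χ z * (1 / (nm z : ℝ)))| := by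
        refine (abs_add_le _ _).trans ?_
        gcongr
        exact abs_add_le _ _
    _ ≤ (48 * C0 + 24 * ρ) * (T * Q ^ (-δ)) + 24 * C' * (T * Q ^ (-δ)) +
        ρ * T * (C' * (3 + 2 / δ') * Q ^ (-δ)) := by
        refine add_le_add (add_le_add b1 b2) ?_
        rw [abs_mul, abs_of_pos (by positivity : 0 < ρ * (T : ℝ))]
        exact mul_le_mul_of_nonneg_left b3 (by positivity)
    _ = _ := by ring

end Pool.Agent.K1H33.Q3
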